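import Mathlib
import Pool.Agent.H.MP_c59173_co.A

set_option autoImplicit false

namespace Pool.Agent.Results.MP_c59173_co.Counter

open Finset

/-- the ordered product set -/
def prodSet {G : Type} [Group G] [DecidableEq G] {n : ℕ} (T : Fin n → Finset G) : Finset G :=
  (Fintype.piFinset T).image fun s => (List.ofFn s).prod

/-- largest product set when the factors outside `A` are replaced by one of their elements -/
def N {G : Type} [Group G] [DecidableEq G] {n : ℕ} (S : Fin n → Finset G) (A : Finset (Fin n)) :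
    ℕ :=
  (Fintype.piFinset S).sup fun x => (prodSet fun i => if i ∈ A then S i else {x i}).card

theorem mem4 {G : Type} [Group G] [DecidableEq G] (T : Fin 4 → Finset G) (g : G) :
    g ∈ prodSet T ↔ ∃ s : Fin 4 → G, (∀ i, s i ∈ T i) ∧ g = s 0 * (s 1 * (s 2 * s 3)) := by
  simp [prodSet, List.ofFn_succ, eq_comm]

open Pool.Agent.H.MP_c59173_co in
theorem result : ∃ (G : Type) (_ : Group G) (_ : DecidableEq G) (n : ℕ) (S : Fin n → Finset G),
    1 ≤ n ∧ (∀ i, (S i).Nonempty) ∧ ∀ l : Fin n → ℝ, (∀ i, 0 < l i) →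
      ∏ i, l i = (prodSet S).card → ∃ A : Finset (Fin n), (N S A : ℝ) < ∏ i ∈ A, l i := by
  let S : Fin 4 → Finset G := ![SB, univ.image ea, univ.image eb, SA]
  refine ⟨G, inferInstance, inferInstance, 4, S, by norm_num, ?_, fun l hl h => ?_⟩
  · intro i
    fin_cases i
    · exact card_pos.1 (by show 0 < SB.card; rw [cSB]; norm_num)
    · exact univ_nonempty.image _
    · exact univ_nonempty.image _
    · exact card_pos.1 (by show 0 < SA.card; rw [cSA]; norm_num)
  have h0 : 1280 ≤ (prodSet S).card := by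
    refine lower _ fun g hg i j t ht => (mem4 _ _).2 ⟨![g, ea i, eb j, t], fun c => ?_, rfl⟩
    fin_cases c
    · exact hg
    · exact mem_image_of_mem _ (mem_univ _)
    · exact mem_image_of_mem _ (mem_univ _)
    · exact ht
  have h1 : N S {0, 2} ≤ 32 := by
    refine Finset.sup_le fun x hx => ?_
    obtain ⟨i, -, hi⟩ := mem_image.1 (Fintype.mem_piFinset.1 hx 1)
    refine up1 _ i (x 3) fun y hy => ?_
    obtain ⟨s, hs, rfl⟩ := (mem4 _ _).1 hy
    have s0 : s 0 ∈ SB := hs 0
    have s1 : s 1 = x 1 := mem_singleton.1 (hs 1)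
    obtain ⟨j, -, s2⟩ := mem_image.1 (hs 2 : s 2 ∈ univ.image eb)
    have s3 : s 3 = x 3 := mem_singleton.1 (hs 3)
    exact ⟨s 0, s0, j, by rw [s1, s3, hi, s2]⟩
  have h2 : N S {1, 3} ≤ 32 := by
    refine Finset.sup_le fun x hx => ?_
    obtain ⟨j, -, hj⟩ := mem_image.1 (Fintype.mem_piFinset.1 hx 2)
    refine up2 _ j (x 0) fun y hy => ?_
    obtain ⟨s, hs, rfl⟩ := (mem4 _ _).1 hy
    have s0 : s 0 = x 0 := mem_singleton.1 (hs 0)
    obtain ⟨i, -, s1⟩ := mem_image.1 (hs 1 : s 1 ∈ univ.image ea)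
    have s2 : s 2 = x 2 := mem_singleton.1 (hs 2)
    have s3 : s 3 ∈ SA := hs 3
    exact ⟨s 3, s3, i, by rw [s0, s2, hj, s1]⟩
  by_contra H
  push Not at H
  have a1 := H {0, 2}
  have a2 := H {1, 3}
  rw [prod_pair (by decide)] at a1 a2
  rw [Fin.prod_univ_four] at h
  have b0 : (1280 : ℝ) ≤ (prodSet S).card := by exact_mod_cast h0
  have b1 : (N S {0, 2} : ℝ) ≤ 32 := by exact_mod_cast h1
  have b2 : (N S {1, 3} : ℝ) ≤ 32 := by exact_mod_cast h2
  have := mul_le_mul (a1.trans b1) (a2.trans b2) (mul_pos (hl 1) (hl 3)).le (by norm_num)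
  linarith

end Pool.Agent.Results.MP_c59173_co.Counter
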